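import Mathlib
import Pool.Agent.Lib.lead.MRDP

set_option autoImplicit false

namespace Pool.Agent.Results.MP_301441_lc.Undecidable
open LeadMRDP

/-- the defining relations `ab = ba` for `(a,b) ∈ I` -/
def CommRel {k : ℕ} (I : Fin k → Fin k → Prop) (u v : FreeMonoid (Fin k)) : Prop :=
  ∃ a b, I a b ∧ u = FreeMonoid.of a * FreeMonoid.of b ∧ v = FreeMonoid.of b * FreeMonoid.of a

/-- the trace monoid `M(A,I)` on the alphabet `A = Fin k` -/
abbrev Trace {k : ℕ} (I : Fin k → Fin k → Prop) : Type := PresentedMonoid (CommRel I)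

/-- the abelianisation map, sending a trace to its vector of letter counts -/
def letterCount {k : ℕ} (I : Fin k → Fin k → Prop) : Trace I →* Multiplicative (Fin k → ℕ) :=
  PresentedMonoid.lift (fun a => Multiplicative.ofAdd (Pi.single a 1)) (by
    rintro _ _ ⟨a, b, _, rfl, rfl⟩
    simp only [map_mul]; exact mul_comm _ _)

/-- value in the trace monoid of a word in letters and variables -/
def evalWord {k : ℕ} (I : Fin k → Fin k → Prop) (σ : ℕ → Trace I) (w : List (Fin k ⊕ ℕ)) :
    Trace I :=
  (w.map (Sum.elim (PresentedMonoid.of (CommRel I)) σ)).prod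

/-- value in `ℕ^A` of a formal sum of constants and variables -/
def evalSum {k : ℕ} (I : Fin k → Fin k → Prop) (σ : ℕ → Trace I) (s : List ((Fin k → ℕ) ⊕ ℕ)) :
    Fin k → ℕ :=
  (s.map (Sum.elim id fun x => Multiplicative.toAdd (letterCount I (σ x)))).sum

/-- the instance `(S, S')` of `(DP, ab)` has a solution -/
def Solvable {k : ℕ} (I : Fin k → Fin k → Prop)
    (P : List (List (Fin k ⊕ ℕ) × List (Fin k ⊕ ℕ)) ×
      List (List ((Fin k → ℕ) ⊕ ℕ) × List ((Fin k → ℕ) ⊕ ℕ))) : Prop :=
  ∃ σ : ℕ → Trace I, (∀ e ∈ P.1, evalWord I σ e.1 = evalWord I σ e.2) ∧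
    ∀ e ∈ P.2, evalSum I σ e.1 = evalSum I σ e.2

theorem comm_count {α : Type} [DecidableEq α] (a b : α) : ∀ (n : ℕ) (u w : List α),
    u.length + w.length ≤ n → u ++ w = w ++ u →
      u.count a * w.count b = u.count b * w.count a := by
  intro n
  induction n with
  | zero =>
    intro u w h _
    have : u = [] := List.length_eq_zero_iff.1 (by omega)
    simp [this]
  | succ n ih =>
    intro u w h e
    wlog hl : u.length ≤ w.length generalizing u w
    · have := this w u (by omega) e.symm (by omega)
      rw [mul_comm, ← this, mul_comm]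
    rcases eq_or_ne u [] with rfl | hu
    · simp
    have hu' : 0 < u.length := List.length_pos_iff.2 hu
    obtain ⟨w', rfl⟩ : u <+: w :=
      List.prefix_of_prefix_length_le (l₃ := u ++ w) (List.prefix_append _ _)
        (e ▸ List.prefix_append _ _) hl
    rw [List.append_assoc, List.append_cancel_left_eq] at e
    have := ih u w' (by simp at h; omega) e
    simp only [List.count_append]
    nlinarith

section
variable {k : ℕ} {I : Fin k → Fin k → Prop}

def cnt (I : Fin k → Fin k → Prop) (c : Fin k) (m : Trace I) : ℕ :=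
  Multiplicative.toAdd (letterCount I m) c

theorem cnt_mul (c : Fin k) (m n : Trace I) : cnt I c (m * n) = cnt I c m + cnt I c n := by
  simp [cnt]

theorem cnt_pow (c : Fin k) (m : Trace I) (n : ℕ) : cnt I c (m ^ n) = n * cnt I c m := by
  simp [cnt]

theorem cnt_of (c d : Fin k) :
    cnt I c (PresentedMonoid.of (CommRel I) d) = if c = d then 1 else 0 := by
  simp [cnt, letterCount, Pi.single_apply]

theorem comm_cnt (hi : ∀ a, ¬ I a a) (hs : ∀ a b, I a b → I b a) {a b : Fin k} (hab : ¬ I a b)
    {m n : Trace I} (h : m * n = n * m) : cnt I a m * cnt I b n = cnt I b m * cnt I a n := by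
  let ρ : Trace I →* FreeMonoid (Fin k) :=
    PresentedMonoid.lift (fun c => if c = a ∨ c = b then FreeMonoid.of c else 1) (by
      rintro _ _ ⟨c, d, hcd, rfl, rfl⟩
      simp only [map_mul, FreeMonoid.lift_eval_of]
      by_cases hc : c = a ∨ c = b
      · by_cases hd : d = a ∨ d = b
        · exfalso
          rcases hc with rfl | rfl <;> rcases hd with rfl | rfl
          · exact hi _ hcd
          · exact hab hcd
          · exact hab (hs _ _ hcd)
          · exact hi _ hcd
        · simp [hd]
      · simp [hc])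
  have hc : ∀ c, (c = a ∨ c = b) → ∀ m, (FreeMonoid.toList (ρ m)).count c = cnt I c m := by
    intro c hc m
    induction m using PresentedMonoid.inductionOn with
    | h w =>
      induction w using FreeMonoid.inductionOn' with
      | one => simp [cnt]
      | of_mul d w ih =>
        rw [map_mul, map_mul, cnt_mul, FreeMonoid.toList_mul, List.count_append, ih]
        congr 1
        have : PresentedMonoid.mk (CommRel I) (FreeMonoid.of d) = PresentedMonoid.of _ d := rfl
        rw [this, cnt_of]
        simp only [ρ, PresentedMonoid.lift_of]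
        by_cases hd : d = a ∨ d = b
        · rw [if_pos hd]
          by_cases e : c = d
          · simp [e]
          · simp [e, Ne.symm e]
        · have : c ≠ d := by rintro rfl; exact hd hc
          simp [hd, this]
  have e : FreeMonoid.toList (ρ m) ++ FreeMonoid.toList (ρ n)
      = FreeMonoid.toList (ρ n) ++ FreeMonoid.toList (ρ m) := by
    rw [← FreeMonoid.toList_mul, ← FreeMonoid.toList_mul, ← map_mul, ← map_mul, h]
  have := comm_count a b _ _ _ le_rfl e
  rwa [hc a (Or.inl rfl), hc a (Or.inl rfl), hc b (Or.inr rfl), hc b (Or.inr rfl)] at this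

abbrev W (V : Type) := V ⊕ (V × V × V × Fin 3)

def eqs {V : Type} (a b : Fin k) (e : W V → ℕ) :
    Con V → List (List (Fin k ⊕ ℕ) × List (Fin k ⊕ ℕ))
  | .add _ _ _ => []
  | .one x => [([.inr (e (.inl x))], [.inl a])]
  | .mul x y z =>
    [([.inr (e (.inl x)), .inl a], [.inl a, .inr (e (.inl x))]),
     ([.inr (e (.inl y)), .inl a], [.inl a, .inr (e (.inl y))]),
     ([.inr (e (.inl z)), .inl a], [.inl a, .inr (e (.inl z))]),
     ([.inr (e (.inr (x, y, z, 0))), .inl b], [.inl b, .inr (e (.inr (x, y, z, 0)))]),
     ([.inr (e (.inr (x, y, z, 1))), .inl a, .inl b],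
        [.inl a, .inl b, .inr (e (.inr (x, y, z, 1)))]),
     ([.inr (e (.inr (x, y, z, 2))), .inr (e (.inl y)), .inl b],
        [.inr (e (.inl y)), .inl b, .inr (e (.inr (x, y, z, 2)))])]

def abs {V : Type} (e : W V → ℕ) :
    Con V → List (List ((Fin k → ℕ) ⊕ ℕ) × List ((Fin k → ℕ) ⊕ ℕ))
  | .add x y z => [([.inr (e (.inl x))], [.inr (e (.inl y)), .inr (e (.inl z))])]
  | .one _ => []
  | .mul x y z =>
    [([.inr (e (.inr (x, y, z, 1)))], [.inr (e (.inl z)), .inr (e (.inr (x, y, z, 0)))]),
     ([.inr (e (.inr (x, y, z, 2)))], [.inr (e (.inl x)), .inr (e (.inr (x, y, z, 0)))])]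

end

theorem result (k : ℕ) (I : Fin k → Fin k → Prop) (hirr : ∀ a, ¬ I a a)
    (hsymm : ∀ a b, I a b → I b a) (hnc : ∃ a b, a ≠ b ∧ ¬ I a b) :
    ¬ ComputablePred (Solvable I) := by
  obtain ⟨a, b, hne, hab⟩ := hnc
  intro H
  obtain ⟨V, hV, x0, L, h⟩ := exists_flat_nat
  obtain ⟨e, he⟩ := Countable.exists_injective_nat (W V)
  let F : ℕ → List (List (Fin k ⊕ ℕ) × List (Fin k ⊕ ℕ)) ×
      List (List ((Fin k → ℕ) ⊕ ℕ) × List ((Fin k → ℕ) ⊕ ℕ)) := fun n =>
    (([.inr (e (.inl x0))], (List.range n).map fun _ => .inl a) :: L.flatMap (eqs a b e),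
      L.flatMap (abs e))
  have hF : Primrec F :=
    (Primrec.list_cons.comp ((Primrec.const _).pair
      (Primrec.list_map Primrec.list_range (Primrec.const _).to₂)) (Primrec.const _)).pair
      (Primrec.const _)
  obtain ⟨inst, H⟩ := H
  apply h
  refine ComputablePred.of_eq ⟨fun n => inst (F n), H.comp hF.to_comp⟩ fun n => ?_
  have hpow : ∀ σ, evalWord I σ ((List.range n).map fun _ => .inl a)
      = PresentedMonoid.of (CommRel I) a ^ n := by
    intro σ; simp [evalWord, Function.comp_def]
  simp only [Solvable, F, List.forall_mem_cons, List.forall_mem_flatMap, hpow]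
  have caa : cnt I a (PresentedMonoid.of (CommRel I) a) = 1 := by simp [cnt_of]
  have cbb : cnt I b (PresentedMonoid.of (CommRel I) b) = 1 := by simp [cnt_of]
  have cab : cnt I a (PresentedMonoid.of (CommRel I) b) = 0 := by simp [cnt_of, hne]
  have cba : cnt I b (PresentedMonoid.of (CommRel I) a) = 0 := by simp [cnt_of, hne.symm]
  constructor
  · rintro ⟨σ, ⟨h0, h1⟩, h2⟩
    refine ⟨fun x => cnt I a (σ (e (.inl x))), ?_, fun c hc => ?_⟩
    · have : σ (e (.inl x0)) = PresentedMonoid.of (CommRel I) a ^ n := by
        simpa [evalWord] using h0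
      simp only [this, cnt_pow, caa, mul_one]
    · have h1 := h1 c hc
      have h2 := h2 c hc
      cases c with
      | add x y z =>
        simp [abs, evalSum] at h2
        exact congrFun h2 a
      | one x =>
        simp [eqs, evalWord] at h1
        simp only [Con.sat, h1, caa]
      | mul x y z =>
        simp [abs, evalSum] at h2
        simp [eqs, evalWord] at h1
        obtain ⟨e1, e2, e3, e4, e5, e6⟩ := h1
        have f1 := comm_cnt hirr hsymm hab e1
        have f2 := comm_cnt hirr hsymm hab e2
        have f3 := comm_cnt hirr hsymm hab e3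
        have f4 := comm_cnt hirr hsymm hab e4
        have f5 := comm_cnt hirr hsymm hab (e5.trans (mul_assoc _ _ _).symm)
        have f6 := comm_cnt hirr hsymm hab (e6.trans (mul_assoc _ _ _).symm)
        have g1 : cnt I a _ = cnt I a _ + cnt I a _ := congrFun h2.1 a
        have g2 : cnt I b _ = cnt I b _ + cnt I b _ := congrFun h2.1 b
        have g3 : cnt I a _ = cnt I a _ + cnt I a _ := congrFun h2.2 a
        have g4 : cnt I b _ = cnt I b _ + cnt I b _ := congrFun h2.2 b
        simp only [cnt_mul, caa, cbb, cab, cba, mul_one, mul_zero, add_zero, zero_add] at *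
        rw [← f2] at f6
        simp only [Con.sat]
        rw [← f1, zero_add] at g4
        rw [← f3, zero_add] at g2
        rw [f4, add_zero] at g1 g3
        rw [← g3, ← g1, f5, g2, ← g4, mul_comm, ← f6]; simp
  · rintro ⟨v, h0, h1⟩
    let A := PresentedMonoid.of (CommRel I) a
    let B := PresentedMonoid.of (CommRel I) b
    let τ : W V → Trace I := Sum.elim (fun x => A ^ v x) fun t =>
      ![B ^ v t.2.2.1, (A * B) ^ v t.2.2.1, (A ^ v t.2.1 * B) ^ v t.2.2.1] t.2.2.2
    let σ : ℕ → Trace I := Function.extend e τ fun _ => 1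
    have hσ : ∀ w, σ (e w) = τ w := fun w => he.extend_apply _ _ w
    refine ⟨σ, ⟨by simp [evalWord, hσ, τ, h0, A], fun c hc => ?_⟩, fun c hc => ?_⟩
    · have := h1 c hc
      cases c with
      | add x y z => simp [eqs]
      | one x =>
        simp only [Con.sat] at this
        simp [eqs, evalWord, hσ, τ, this, A]
      | mul x y z =>
        simp only [eqs, evalWord, List.forall_mem_cons, List.map_cons, List.map_nil,
          List.prod_cons, List.prod_nil, Sum.elim_inl, Sum.elim_inr, hσ, τ, mul_one]
        refine ⟨(Commute.pow_self A _), (Commute.pow_self A _), (Commute.pow_self A _),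
          (Commute.pow_self B _), ?_, ?_, by simp⟩
        · exact (Commute.pow_self (A * B) _).eq.trans (mul_assoc _ _ _)
        · exact (Commute.pow_self (A ^ v y * B) _).eq.trans (mul_assoc _ _ _)
    · have := h1 c hc
      cases c with
      | add x y z =>
        simp only [Con.sat] at this
        simp [abs, evalSum, hσ, τ, this, add_smul]
      | one x => simp [abs]
      | mul x y z =>
        simp only [Con.sat] at this
        simp [abs, evalSum, hσ, τ, this, mul_smul]
        ring

end Pool.Agent.Results.MP_301441_lc.Undecidable
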